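import Pool.Agent.Q35.TT.Stm

/-!
# Project TT (helper35): `S_BHT`, a lower bound for a height on the line
-/

set_option autoImplicit false

open Pool.Agent.Q35.TT Height Polynomial

namespace Pool.Agent.Q164.TT

section

variable {K : Type} [Field K]

/-- The homogenization of `Q`, of degree `M`. -/
noncomputable def hmg (M : ℕ) (Q : K[X]) : MvPolynomial (Fin 2) K :=
  ∑ i ∈ Finset.range (M + 1), MvPolynomial.C (Q.coeff i) * (MvPolynomial.X 0 ^ (M - i) * MvPolynomial.X 1 ^ i)

theorem hmg_isHomogeneous (M : ℕ) (Q : K[X]) : (hmg M Q).IsHomogeneous M := by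
  unfold hmg
  apply MvPolynomial.IsHomogeneous.sum
  intro i hi
  have hi' : i ≤ M := Nat.lt_succ_iff.1 (Finset.mem_range.1 hi)
  have h := (MvPolynomial.isHomogeneous_C (Fin 2) (Q.coeff i)).mul
    (((MvPolynomial.isHomogeneous_X K (0 : Fin 2)).pow (M - i)).mul ((MvPolynomial.isHomogeneous_X K (1 : Fin 2)).pow i))
  rw [show 0 + (1 * (M - i) + 1 * i) = M by omega] at h
  exact h

theorem eval_hmg {M : ℕ} {Q : K[X]} (hQ : Q.natDegree ≤ M) (t : K) : (hmg M Q).eval ![1, t] = Q.eval t := by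
  unfold hmg
  rw [map_sum, Polynomial.eval_eq_sum_range' (Nat.lt_succ_of_le hQ)]
  refine Finset.sum_congr rfl (fun i _ => ?_)
  simp

theorem eval_aeval (P : K[X]) (x : Fin 2 → K) : (Polynomial.aeval (MvPolynomial.X 1 : MvPolynomial (Fin 2) K) P).eval x = P.eval (x 1) := by
  rw [Polynomial.aeval_def, Polynomial.hom_eval₂, MvPolynomial.eval_X, Polynomial.eval]
  congr 1
  ext a
  simp

end

section

variable {K : Type} [Field K] [NumberField K]

theorem core {M N : ℕ} (P : Fin 3 → K[X]) (Q0 Q1 : Fin 3 → K[X]) (h0 : ∀ j, (Q0 j).natDegree ≤ M)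
    (h1 : ∀ j, (Q1 j).natDegree ≤ M) (e0 : ∑ j, Q0 j * P j = 1) (e1 : ∑ j, Q1 j * P j = X ^ (M + N)) :
    ∃ C : ℝ, 0 < C ∧ ∀ t : K, C * mulHeight₁ t ^ N ≤ mulHeight (fun j => (P j).eval t) := by
  obtain ⟨C, hC, H⟩ := mulHeight_eval_ge' (K := K) (M := M) (N := N)
    (q := fun a : Fin 2 × Fin 3 => hmg M (if a.1 = 0 then Q0 a.2 else Q1 a.2)) (fun a => hmg_isHomogeneous M _)
  refine ⟨C, hC, fun t => ?_⟩
  have h := H (fun j => Polynomial.aeval (MvPolynomial.X 1 : MvPolynomial (Fin 2) K) (P j)) (x := ![1, t]) ?_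
  · simp only [eval_aeval] at h
    rw [mulHeight₁_eq_mulHeight, mulHeight_swap]
    exact h
  · intro k
    simp only [eval_aeval]
    fin_cases k
    · simp only [Fin.zero_eta, Fin.isValue, if_true, eval_hmg (h0 _), Matrix.cons_val_one, Matrix.cons_val_zero, one_pow]
      have := congrArg (Polynomial.eval t) e0
      rw [Polynomial.eval_finsetSum, Polynomial.eval_one] at this
      simpa [Polynomial.eval_mul] using this
    · have hne : (1 : Fin 2) ≠ 0 := by decide
      simp only [Fin.mk_one, Fin.isValue, if_neg hne, eval_hmg (h1 _), Matrix.cons_val_one]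
      have := congrArg (Polynomial.eval t) e1
      rw [Polynomial.eval_finsetSum, Polynomial.eval_pow, Polynomial.eval_X] at this
      simpa [Polynomial.eval_mul] using this

end

section

variable {K : Type} [Field K]

theorem eval_pq (a : Fin 5 → K) (t : K) : (pq a).eval t = bq a ![1, t] := by
  unfold pq bq
  rw [Polynomial.eval_finsetSum, Fin.sum_univ_five]
  simp

theorem natDegree_pq (a : Fin 5 → K) : (pq a).natDegree ≤ 4 := by
  unfold pq
  apply Polynomial.natDegree_sum_le_of_forall_le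
  intro i _
  refine (Polynomial.natDegree_C_mul_X_pow_le _ _).trans ?_
  omega

/-- The algebraic part: the forms `H1, G1, G1 X ^ 4` have no common zero in a strong sense. -/
theorem alg {G H D G1 H1 : K[X]} (hG : G.natDegree ≤ 4) (hH : H.natDegree ≤ 4) (hG0 : G ≠ 0) (eG : G = D * G1)
    (eH : H ^ 2 = D * H1) {A B : K[X]} (hAB : G1 * A + H1 * B = 1)
    (nd : ¬ G ∣ H ^ 2 ∨ 4 + G.natDegree < 2 * H.natDegree) :
    ∃ (M N : ℕ) (Q0 Q1 : Fin 3 → K[X]), 5 ≤ N ∧ (∀ j, (Q0 j).natDegree ≤ M) ∧ (∀ j, (Q1 j).natDegree ≤ M) ∧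
      ∑ j, Q0 j * ![H1, G1, G1 * X ^ 4] j = 1 ∧ ∑ j, Q1 j * ![H1, G1, G1 * X ^ 4] j = X ^ (M + N) := by
  have hD0 : D ≠ 0 := by
    rintro rfl
    exact hG0 (by rw [eG, zero_mul])
  have hG10 : G1 ≠ 0 := by
    rintro rfl
    exact hG0 (by rw [eG, mul_zero])
  have dG : G.natDegree = D.natDegree + G1.natDegree := by rw [eG, Polynomial.natDegree_mul hD0 hG10]
  have dH1 : H1.natDegree ≤ 8 := by
    by_cases h : H1 = 0
    · rw [h, Polynomial.natDegree_zero]
      omega
    · have := congrArg Polynomial.natDegree eH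
      rw [Polynomial.natDegree_pow, Polynomial.natDegree_mul hD0 h] at this
      omega
  obtain ⟨M, hM⟩ : ∃ M : ℕ, M = 8 + A.natDegree + B.natDegree := ⟨_, rfl⟩
  have key0 : (∀ j, ((![B, A, 0] : Fin 3 → K[X]) j).natDegree ≤ M) ∧
      ∑ j, (![B, A, 0] : Fin 3 → K[X]) j * ![H1, G1, G1 * X ^ 4] j = 1 := by
    constructor
    · intro j
      fin_cases j
      · simp only [Fin.zero_eta, Matrix.cons_val_zero]
        omega
      · simp only [Fin.mk_one, Matrix.cons_val_one, Matrix.cons_val_zero]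
        omega
      · simp
    · rw [Fin.sum_univ_three]
      simp only [Matrix.cons_val_zero, Matrix.cons_val_one, Matrix.cons_val_two, Matrix.tail_cons, Matrix.head_cons,
        zero_mul, add_zero]
      rw [← hAB]
      ring
  rcases nd with nd | nd
  · -- `N = 4 + deg G1`
    have hG1 : 1 ≤ G1.natDegree := by
      by_contra hcon
      obtain ⟨c, hc⟩ := Polynomial.natDegree_eq_zero.1 (by omega : G1.natDegree = 0)
      have hc0 : c ≠ 0 := by
        rintro rfl
        rw [Polynomial.C_0] at hc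
        exact hG10 hc.symm
      apply nd
      rw [eH, eG, ← hc]
      refine ⟨Polynomial.C c⁻¹ * H1, ?_⟩
      have : Polynomial.C c * Polynomial.C c⁻¹ = (1 : K[X]) := by
        rw [← Polynomial.C_mul, mul_inv_cancel₀ hc0, Polynomial.C_1]
      linear_combination (-(D * H1)) * this
    obtain ⟨N, hN⟩ : ∃ N : ℕ, N = 4 + G1.natDegree := ⟨_, rfl⟩
    obtain ⟨U, hU⟩ : ∃ U : K[X], U = X ^ 4 * G1 := ⟨_, rfl⟩
    have hU0 : U ≠ 0 := by
      rw [hU]
      exact mul_ne_zero (pow_ne_zero _ Polynomial.X_ne_zero) hG10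
    have dU : U.natDegree = N := by
      rw [hU, Polynomial.natDegree_mul (pow_ne_zero _ Polynomial.X_ne_zero) hG10, Polynomial.natDegree_X_pow, hN]
    obtain ⟨W, hW⟩ : ∃ W : K[X], W = (X ^ (M + N) * B) / U := ⟨_, rfl⟩
    obtain ⟨R, hR⟩ : ∃ R : K[X], R = (X ^ (M + N) * B) % U := ⟨_, rfl⟩
    have hWR : U * W + R = X ^ (M + N) * B := by
      rw [hW, hR]
      exact EuclideanDomain.div_add_mod _ _
    have dR : R.natDegree < N := by
      rw [hR, ← dU]
      exact Polynomial.natDegree_mod_lt _ (by omega)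
    obtain ⟨S, hS⟩ : ∃ S : K[X], S = W * X ^ 4 * H1 + X ^ (M + N) * A := ⟨_, rfl⟩
    have hSG : S * G1 = X ^ (M + N) - R * H1 := by
      rw [hS]
      rw [hU] at hWR
      linear_combination H1 * hWR + X ^ (M + N) * hAB
    have dS : S.natDegree ≤ M + 4 := by
      by_cases hS0 : S = 0
      · rw [hS0, Polynomial.natDegree_zero]
        omega
      · have h1 : (S * G1).natDegree ≤ M + N := by
          rw [hSG]
          refine (Polynomial.natDegree_sub_le _ _).trans (max_le ?_ ?_)
          · rw [Polynomial.natDegree_X_pow]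
          · refine (Polynomial.natDegree_mul_le).trans ?_
            omega
        rw [Polynomial.natDegree_mul hS0 hG10] at h1
        omega
    have hm : (X ^ 4 : K[X]).Monic := Polynomial.monic_X_pow 4
    obtain ⟨S1, hS1⟩ : ∃ S1 : K[X], S1 = S %ₘ X ^ 4 := ⟨_, rfl⟩
    obtain ⟨S2, hS2⟩ : ∃ S2 : K[X], S2 = S /ₘ X ^ 4 := ⟨_, rfl⟩
    have hSS : S1 + X ^ 4 * S2 = S := by
      rw [hS1, hS2]
      exact Polynomial.modByMonic_add_div S _
    have dS1 : S1.natDegree ≤ M := by
      have := Polynomial.natDegree_modByMonic_le S hm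
      rw [Polynomial.natDegree_X_pow, ← hS1] at this
      omega
    have dS2 : S2.natDegree ≤ M := by
      rw [hS2, Polynomial.natDegree_divByMonic S hm, Polynomial.natDegree_X_pow]
      omega
    refine ⟨M, N, ![B, A, 0], ![R, S1, S2], by omega, key0.1, ?_, key0.2, ?_⟩
    · intro j
      fin_cases j
      · simp only [Fin.zero_eta, Matrix.cons_val_zero]
        omega
      · simp only [Fin.mk_one, Matrix.cons_val_one, Matrix.cons_val_zero]
        omega
      · simp only [Fin.reduceFinMk, Matrix.cons_val]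
        omega
    · rw [Fin.sum_univ_three]
      simp only [Matrix.cons_val_zero, Matrix.cons_val_one, Matrix.cons_val_two, Matrix.tail_cons, Matrix.head_cons]
      linear_combination G1 * hSS + hSG
  · -- `N = deg H1`
    have hH0 : H ≠ 0 := by
      rintro rfl
      rw [Polynomial.natDegree_zero] at nd
      omega
    have hH10 : H1 ≠ 0 := by
      rintro rfl
      rw [mul_zero] at eH
      exact hH0 (pow_eq_zero_iff two_ne_zero |>.1 eH)
    obtain ⟨N, hN⟩ : ∃ N : ℕ, N = H1.natDegree := ⟨_, rfl⟩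
    have dH : 2 * H.natDegree = D.natDegree + N := by
      have := congrArg Polynomial.natDegree eH
      rw [Polynomial.natDegree_pow, Polynomial.natDegree_mul hD0 hH10] at this
      omega
    obtain ⟨W, hW⟩ : ∃ W : K[X], W = (X ^ (M + N) * A) / H1 := ⟨_, rfl⟩
    obtain ⟨R, hR⟩ : ∃ R : K[X], R = (X ^ (M + N) * A) % H1 := ⟨_, rfl⟩
    have hWR : H1 * W + R = X ^ (M + N) * A := by
      rw [hW, hR]
      exact EuclideanDomain.div_add_mod _ _
    have dR : R.natDegree < N := by
      rw [hR, hN]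
      exact Polynomial.natDegree_mod_lt _ (by omega)
    obtain ⟨S, hS⟩ : ∃ S : K[X], S = X ^ (M + N) * B + W * G1 := ⟨_, rfl⟩
    have hSH : S * H1 = X ^ (M + N) - R * G1 := by
      rw [hS]
      linear_combination G1 * hWR + X ^ (M + N) * hAB
    have dS : S.natDegree ≤ M := by
      by_cases hS0 : S = 0
      · rw [hS0, Polynomial.natDegree_zero]
        omega
      · have h1 : (S * H1).natDegree ≤ M + N := by
          rw [hSH]
          refine (Polynomial.natDegree_sub_le _ _).trans (max_le ?_ ?_)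
          · rw [Polynomial.natDegree_X_pow]
          · refine (Polynomial.natDegree_mul_le).trans ?_
            omega
        rw [Polynomial.natDegree_mul hS0 hH10] at h1
        omega
    refine ⟨M, N, ![B, A, 0], ![S, R, 0], by omega, key0.1, ?_, key0.2, ?_⟩
    · intro j
      fin_cases j
      · simp only [Fin.zero_eta, Matrix.cons_val_zero]
        omega
      · simp only [Fin.mk_one, Matrix.cons_val_one, Matrix.cons_val_zero]
        omega
      · simp
    · rw [Fin.sum_univ_three]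
      simp only [Matrix.cons_val_zero, Matrix.cons_val_one, Matrix.cons_val_two, Matrix.tail_cons, Matrix.head_cons]
      linear_combination hSH

end

theorem bht : S_BHT := by
  intro K _ _ g h nd
  by_cases hG0 : pq g = 0
  · refine ⟨1, one_pos, fun t ht => absurd ?_ ht⟩
    rw [← eval_pq, hG0, Polynomial.eval_zero]
  classical
  obtain ⟨D, hD⟩ : ∃ D : K[X], D = EuclideanDomain.gcd (pq g) (pq h ^ 2) := ⟨_, rfl⟩
  obtain ⟨G1, eG⟩ : D ∣ pq g := hD ▸ EuclideanDomain.gcd_dvd_left _ _
  obtain ⟨H1, eH⟩ : D ∣ pq h ^ 2 := hD ▸ EuclideanDomain.gcd_dvd_right _ _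
  have hD0 : D ≠ 0 := by
    intro h0
    exact hG0 (by rw [eG, h0, zero_mul])
  obtain ⟨A, B, hAB⟩ : ∃ A B : K[X], G1 * A + H1 * B = 1 := by
    refine ⟨EuclideanDomain.gcdA (pq g) (pq h ^ 2), EuclideanDomain.gcdB (pq g) (pq h ^ 2), ?_⟩
    have h1 := EuclideanDomain.gcd_eq_gcd_ab (pq g) (pq h ^ 2)
    rw [← hD] at h1
    apply mul_left_cancel₀ hD0
    rw [mul_one]
    calc D * (G1 * EuclideanDomain.gcdA (pq g) (pq h ^ 2) + H1 * EuclideanDomain.gcdB (pq g) (pq h ^ 2))
        = (D * G1) * EuclideanDomain.gcdA (pq g) (pq h ^ 2) + (D * H1) * EuclideanDomain.gcdB (pq g) (pq h ^ 2) := by ring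
      _ = D := by rw [← eG, ← eH, ← h1]
  obtain ⟨M, N, Q0, Q1, hN, h0, h1, e0, e1⟩ := alg (natDegree_pq g) (natDegree_pq h) hG0 eG eH hAB nd
  obtain ⟨C, hC, H⟩ := core ![H1, G1, G1 * X ^ 4] Q0 Q1 h0 h1 e0 e1
  refine ⟨C, hC, fun t ht => ?_⟩
  have hDt : D.eval t ≠ 0 := by
    intro h2
    apply ht
    rw [← eval_pq, eG, Polynomial.eval_mul, h2, zero_mul]
  have ev : (![bq h ![1, t] ^ 2, bq g ![1, t], bq g ![1, t] * t ^ 4] : Fin 3 → K) =
      D.eval t • (fun j => ((![H1, G1, G1 * X ^ 4] : Fin 3 → K[X]) j).eval t) := by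
    have a1 : bq g ![1, t] = D.eval t * G1.eval t := by rw [← eval_pq, eG, Polynomial.eval_mul]
    have a2 : bq h ![1, t] ^ 2 = D.eval t * H1.eval t := by rw [← eval_pq, ← Polynomial.eval_pow, eH, Polynomial.eval_mul]
    funext j
    fin_cases j
    · simp only [Fin.zero_eta, Matrix.cons_val_zero, Pi.smul_apply, smul_eq_mul]
      exact a2
    · simp only [Fin.mk_one, Matrix.cons_val_one, Matrix.cons_val_zero, Pi.smul_apply, smul_eq_mul]
      exact a1
    · simp only [Fin.reduceFinMk, Matrix.cons_val, Pi.smul_apply, smul_eq_mul, Polynomial.eval_mul, Polynomial.eval_pow,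
        Polynomial.eval_X]
      rw [a1, mul_assoc]
  rw [ev, mulHeight_smul_eq_mulHeight _ hDt]
  refine le_trans ?_ (H t)
  exact mul_le_mul_of_nonneg_left (pow_le_pow_right₀ (one_le_mulHeight₁ t) hN) hC.le

end Pool.Agent.Q164.TT
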